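import Mathlib
import Pool.Agent.R656.NSCore

/-!
# Numerical semigroups with two incomparable elements in `𝓔(S)` are complete intersections
-/

set_option autoImplicit false

open PowerSeries

namespace Pool.Agent.Results.MP_a0aa5b_al.TwoIncomparable

/-- `n` is a minimal generator of `S`: a nonzero element of `S` which is not the sum of two nonzero
elements of `S`. -/
def MinGen (S : AddSubmonoid ℕ) (n : ℕ) : Prop :=
  n ∈ S ∧ n ≠ 0 ∧ ∀ a ∈ S, ∀ b ∈ S, a ≠ 0 → b ≠ 0 → a + b ≠ n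

/-- The type of the minimal generators of `S`; its cardinality is the embedding dimension. -/
abbrev Gens (S : AddSubmonoid ℕ) : Type := {n : ℕ // MinGen S n}

/-- `a ≤_S b`: the difference `b - a` lies in `S`. -/
def LeS (S : AddSubmonoid ℕ) (a b : ℕ) : Prop := ∃ s ∈ S, b = a + s

open Classical in
/-- The Hilbert series `∑_{s ∈ S} x^s`. -/
noncomputable def H (S : AddSubmonoid ℕ) : ℤ⟦X⟧ := PowerSeries.mk fun n => if n ∈ S then 1 else 0

/-- `P_S(x) = (1 - x) ∑_{s ∈ S} x^s`. -/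
noncomputable def P (S : AddSubmonoid ℕ) : ℤ⟦X⟧ := (1 - X) * H S

theorem isUnit_oneSub (j : ℕ) : IsUnit (1 - X ^ (j + 1) : ℤ⟦X⟧) := by
  rw [PowerSeries.isUnit_iff_constantCoeff]
  simp

/-- The unit `1 - x^(j+1)` of the ring of power series. -/
noncomputable def u (j : ℕ) : ℤ⟦X⟧ˣ := (isUnit_oneSub j).unit

/-- `e` is the exponent sequence of `S`: `P_S(x) = ∏_{j ≥ 1} (1 - x^j)^{e_j}`, that is, for every
`N` the coefficients of `P_S` and of `∏_{j = 1}^{N} (1 - x^j)^{e_j}` at `x^k`, `k ≤ N`, agree. -/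
def IsExpSeq (S : AddSubmonoid ℕ) (e : ℕ → ℤ) : Prop :=
  ∀ N k : ℕ, k ≤ N →
    coeff k (P S) = coeff k ((∏ i ∈ Finset.range N, u i ^ e (i + 1) : ℤ⟦X⟧ˣ) : ℤ⟦X⟧)

/-- `𝓔(S)`: the integers `d ≥ 2` with `e_d ≠ 0` which are not minimal generators of `S`. -/
def E (S : AddSubmonoid ℕ) : Set ℕ :=
  {d | 2 ≤ d ∧ ¬ MinGen S d ∧ ∃ e : ℕ → ℤ, IsExpSeq S e ∧ e d ≠ 0}

/-- `φ(x) = ∑_i x_i n_i`, the value of the vector `x` of multiplicities of the minimal
generators `n_i`. -/
noncomputable def φ (S : AddSubmonoid ℕ) : (Gens S →₀ ℕ) →+ ℕ where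
  toFun x := x.sum fun g k => k * (g : ℕ)
  map_zero' := by simp
  map_add' x y := Finsupp.sum_add_index' (by simp) (by intros; ring)

/-- `ρ` is a presentation of `S`: a set of pairs which generates the congruence
`{(x, y) : φ(x) = φ(y)}`. -/
def IsPresentation (S : AddSubmonoid ℕ) (ρ : Finset ((Gens S →₀ ℕ) × (Gens S →₀ ℕ))) : Prop :=
  addConGen (fun x y => (x, y) ∈ ρ) = AddCon.ker (φ S)

/-- `S` is a complete intersection: it has a minimal presentation with `e(S) - 1` elements, where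
`e(S)` is the number of minimal generators. -/
def IsCompleteIntersection (S : AddSubmonoid ℕ) : Prop :=
  ∃ ρ : Finset ((Gens S →₀ ℕ) × (Gens S →₀ ℕ)), IsPresentation S ρ ∧
    (∀ ρ' ⊂ ρ, ¬ IsPresentation S ρ') ∧ ρ.card + 1 = Nat.card (Gens S)

/-! ## Power series -/

theorem u_val (j : ℕ) : ((u j : ℤ⟦X⟧ˣ) : ℤ⟦X⟧) = 1 - X ^ (j + 1) := (isUnit_oneSub j).unit_spec

/-- `F = 1 - z x^n + O(x^{n+1})` -/
def Lead (n : ℕ) (F : ℤ⟦X⟧) (z : ℤ) : Prop :=
  (∀ k < n, coeff k F = if k = 0 then 1 else 0) ∧ coeff n F = -z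

theorem Lead.mul {n : ℕ} (hn : 0 < n) {F F' : ℤ⟦X⟧} {z z' : ℤ} (h : Lead n F z)
    (h' : Lead n F' z') : Lead n (F * F') (z + z') := by
  constructor
  · intro k hk
    rw [coeff_mul]
    rw [Finset.sum_eq_single (0, k)]
    · rw [h.1 0 hn, h'.1 k hk]; simp
    · rintro ⟨i, j⟩ hij hne
      rw [Finset.HasAntidiagonal.mem_antidiagonal] at hij
      simp only at hij
      have hi : i ≠ 0 := by rintro rfl; apply hne; simp at hij; rw [hij]
      simp only
      rw [h.1 i (by omega), if_neg hi, zero_mul]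
    · intro h; exfalso; apply h; simp
  · rw [coeff_mul]
    have hsub : ({(0, n), (n, 0)} : Finset (ℕ × ℕ)) ⊆ Finset.HasAntidiagonal.antidiagonal n := by
      intro x hx
      simp only [Finset.mem_insert, Finset.mem_singleton] at hx
      rcases hx with rfl | rfl <;> simp
    rw [← Finset.sum_subset hsub]
    · rw [Finset.sum_pair (by simp; omega)]
      simp only
      rw [h.1 0 hn, h'.1 0 hn, h.2, h'.2]; simp
    · rintro ⟨i, j⟩ hij hne
      rw [Finset.HasAntidiagonal.mem_antidiagonal] at hij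
      simp only [Finset.mem_insert, Finset.mem_singleton, Prod.mk.injEq, not_or] at hne hij
      have hi : i ≠ 0 := by rintro rfl; apply hne.1; omega
      simp only
      rw [h.1 i (by omega), if_neg hi, zero_mul]

theorem lead_u (j : ℕ) : Lead (j + 1) ((u j : ℤ⟦X⟧ˣ) : ℤ⟦X⟧) 1 := by
  rw [u_val]
  constructor
  · intro k hk
    rw [map_sub, coeff_one, coeff_X_pow, if_neg (by omega : ¬ k = j + 1), sub_zero]
  · rw [map_sub, coeff_one, coeff_X_pow]; simp

theorem lead_one (j : ℕ) : Lead (j + 1) (1 : ℤ⟦X⟧) 0 := by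
  constructor
  · intro k hk
    rw [coeff_one]
  · rw [coeff_one]; simp

/-- inverses -/
theorem Lead.inv {n : ℕ} (hn : 0 < n) {F F' : ℤ⟦X⟧} {z : ℤ} (h : Lead n F z)
    (h' : F * F' = 1) : Lead n F' (-z) := by
  have hc : ∀ k, coeff k (F * F') = if k = 0 then 1 else 0 := by
    intro k; rw [h', coeff_one]
  have key : ∀ k < n, coeff k F' = if k = 0 then 1 else 0 := by
    intro k
    induction k using Nat.strong_induction_on with
    | _ k ih =>
      intro hk
      have := hc k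
      rw [coeff_mul, Finset.sum_eq_single (0, k)] at this
      · simp only at this
        rw [h.1 0 hn] at this
        simpa using this
      · rintro ⟨i, j⟩ hij hne
        rw [Finset.HasAntidiagonal.mem_antidiagonal] at hij
        simp only at hij
        have hi : i ≠ 0 := by rintro rfl; apply hne; simp at hij; rw [hij]
        simp only
        rw [h.1 i (by omega), if_neg hi, zero_mul]
      · intro h; exfalso; apply h; simp
  refine ⟨key, ?_⟩
  have := hc n
  rw [coeff_mul] at this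
  have hsub : ({(0, n), (n, 0)} : Finset (ℕ × ℕ)) ⊆ Finset.HasAntidiagonal.antidiagonal n := by
    intro x hx
    simp only [Finset.mem_insert, Finset.mem_singleton] at hx
    rcases hx with rfl | rfl <;> simp
  rw [← Finset.sum_subset hsub] at this
  · rw [Finset.sum_pair (by simp; omega)] at this
    simp only at this
    rw [h.1 0 hn, key 0 hn, h.2, if_pos rfl, if_neg (by omega : ¬ n = 0)] at this
    linarith
  · rintro ⟨i, j⟩ hij hne
    rw [Finset.HasAntidiagonal.mem_antidiagonal] at hij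
    simp only [Finset.mem_insert, Finset.mem_singleton, Prod.mk.injEq, not_or] at hne hij
    have hi : i ≠ 0 := by rintro rfl; apply hne.1; omega
    simp only
    rw [h.1 i (by omega), if_neg hi, zero_mul]

theorem lead_zpow (j : ℕ) (z : ℤ) : Lead (j + 1) ((u j ^ z : ℤ⟦X⟧ˣ) : ℤ⟦X⟧) z := by
  have hnat : ∀ m : ℕ, Lead (j + 1) ((u j ^ m : ℤ⟦X⟧ˣ) : ℤ⟦X⟧) m := by
    intro m
    induction m with
    | zero => simpa using lead_one j
    | succ m ih =>
      rw [pow_succ, Units.val_mul]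
      have := ih.mul (Nat.succ_pos j) (lead_u j)
      simpa using this
  obtain ⟨m, rfl | rfl⟩ := z.eq_nat_or_neg
  · rw [zpow_natCast]; exact hnat m
  · rw [zpow_neg, zpow_natCast]
    refine (hnat m).inv (Nat.succ_pos j) ?_
    rw [← Units.val_mul]; simp

/-- the coefficient of `x^{j+1}` in `F (1 - x^{j+1})^z` -/
theorem coeff_mul_zpow (F : ℤ⟦X⟧) (j : ℕ) (z : ℤ) :
    coeff (j + 1) (F * ((u j ^ z : ℤ⟦X⟧ˣ) : ℤ⟦X⟧)) = coeff (j + 1) F - z * coeff 0 F := by
  have h := lead_zpow j z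
  rw [coeff_mul]
  have hsub : ({(0, j + 1), (j + 1, 0)} : Finset (ℕ × ℕ)) ⊆ Finset.HasAntidiagonal.antidiagonal (j + 1) := by
    intro x hx
    simp only [Finset.mem_insert, Finset.mem_singleton] at hx
    rcases hx with rfl | rfl <;> simp
  rw [← Finset.sum_subset hsub]
  · rw [Finset.sum_pair (by simp)]
    simp only
    rw [h.1 0 (Nat.succ_pos j), h.2, if_pos rfl]; ring
  · rintro ⟨i, k⟩ hij hne
    rw [Finset.HasAntidiagonal.mem_antidiagonal] at hij
    simp only [Finset.mem_insert, Finset.mem_singleton, Prod.mk.injEq, not_or] at hne hij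
    have hk : k ≠ 0 := by rintro rfl; apply hne.2; omega
    have hi : i ≠ 0 := by rintro rfl; apply hne.1; omega
    simp only
    rw [h.1 k (by omega), if_neg hk, mul_zero]

/-- power series supported on a submonoid -/
def Supp (T : AddSubmonoid ℕ) : Subring ℤ⟦X⟧ where
  carrier := {F | ∀ k, k ∉ T → coeff k F = 0}
  mul_mem' := by
    intro F F' hF hF' k hk
    rw [coeff_mul]
    refine Finset.sum_eq_zero ?_
    rintro ⟨i, j⟩ hij
    rw [Finset.HasAntidiagonal.mem_antidiagonal] at hij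
    simp only at hij ⊢
    by_cases hi : i ∈ T
    · have hj : j ∉ T := fun hj => hk (hij ▸ T.add_mem hi hj)
      rw [hF' j hj, mul_zero]
    · rw [hF i hi, zero_mul]
  one_mem' := by
    intro k hk
    rw [coeff_one, if_neg]
    rintro rfl
    exact hk T.zero_mem
  add_mem' := by
    intro F F' hF hF' k hk
    rw [map_add, hF k hk, hF' k hk, add_zero]
  zero_mem' := by intro k _; simp
  neg_mem' := by
    intro F hF k hk
    rw [map_neg, hF k hk, neg_zero]

theorem supp_inv (T : AddSubmonoid ℕ) (F F' : ℤ⟦X⟧) (h : F ∈ Supp T) (h0 : coeff 0 F = 1)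
    (h' : F * F' = 1) : F' ∈ Supp T := by
  intro k
  induction k using Nat.strong_induction_on with
  | _ k ih =>
    intro hk
    have hk0 : k ≠ 0 := by rintro rfl; exact hk T.zero_mem
    have h1 : coeff k (F * F') = 0 := by rw [h', coeff_one, if_neg hk0]
    rw [coeff_mul, Finset.sum_eq_single (0, k)] at h1
    · simp only at h1
      rw [h0, one_mul] at h1
      exact h1
    · rintro ⟨i, j⟩ hij hne
      rw [Finset.HasAntidiagonal.mem_antidiagonal] at hij
      simp only at hij ⊢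
      have hi : i ≠ 0 := by rintro rfl; apply hne; simp at hij; rw [hij]
      by_cases hiT : i ∈ T
      · have hj : j ∉ T := fun hj => hk (hij ▸ T.add_mem hiT hj)
        rw [ih j (by omega) hj, mul_zero]
      · rw [h i hiT, zero_mul]
    · intro h; exfalso; apply h; simp

theorem supp_zpow (T : AddSubmonoid ℕ) (j : ℕ) (hj : j + 1 ∈ T) (z : ℤ) :
    ((u j ^ z : ℤ⟦X⟧ˣ) : ℤ⟦X⟧) ∈ Supp T := by
  have h1 : ((u j : ℤ⟦X⟧ˣ) : ℤ⟦X⟧) ∈ Supp T := by
    rw [u_val]
    refine (Supp T).sub_mem (Supp T).one_mem ?_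
    intro k hk
    rw [coeff_X_pow, if_neg]
    rintro rfl
    exact hk hj
  obtain ⟨m, rfl | rfl⟩ := z.eq_nat_or_neg
  · rw [zpow_natCast, Units.val_pow_eq_pow_val]; exact (Supp T).pow_mem h1 m
  · rw [zpow_neg, zpow_natCast]
    refine supp_inv T ((u j ^ m : ℤ⟦X⟧ˣ) : ℤ⟦X⟧) _ ?_ ?_ ?_
    · rw [Units.val_pow_eq_pow_val]; exact (Supp T).pow_mem h1 m
    · have := (lead_zpow j m).1 0 (Nat.succ_pos j)
      rw [zpow_natCast] at this
      simpa using this
    · rw [← Units.val_mul]; simp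

theorem supp_prod (T : AddSubmonoid ℕ) (s : Finset ℕ) (e : ℕ → ℤ)
    (h : ∀ i ∈ s, e i ≠ 0 → i + 1 ∈ T) :
    ((∏ i ∈ s, u i ^ e i : ℤ⟦X⟧ˣ) : ℤ⟦X⟧) ∈ Supp T := by
  rw [Units.coe_prod]
  refine Subring.prod_mem _ ?_
  intro i hi
  by_cases h0 : e i = 0
  · rw [h0, zpow_zero]; exact (Supp T).one_mem
  · exact supp_zpow T i (h i hi h0) _

theorem coeff_zero_zpow (i : ℕ) (z : ℤ) : coeff 0 ((u i ^ z : ℤ⟦X⟧ˣ) : ℤ⟦X⟧) = 1 := by
  simpa using (lead_zpow i z).1 0 (Nat.succ_pos i)

theorem coeff_zero_prod (s : Finset ℕ) (e : ℕ → ℤ) :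
    coeff 0 ((∏ i ∈ s, u i ^ e i : ℤ⟦X⟧ˣ) : ℤ⟦X⟧) = 1 := by
  rw [Units.coe_prod, coeff_zero_eq_constantCoeff, map_prod]
  refine Finset.prod_eq_one ?_
  intro i _
  have := coeff_zero_zpow i (e i)
  rwa [coeff_zero_eq_constantCoeff] at this

/-! ## The exponent sequence -/

theorem expSeq_rec {S : AddSubmonoid ℕ} {e : ℕ → ℤ} (h : IsExpSeq S e) (j : ℕ) :
    coeff (j + 1) (P S) =
      coeff (j + 1) ((∏ i ∈ Finset.range j, u i ^ e (i + 1) : ℤ⟦X⟧ˣ) : ℤ⟦X⟧) - e (j + 1) := by
  rw [h (j + 1) (j + 1) le_rfl, Finset.prod_range_succ, Units.val_mul, coeff_mul_zpow,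
    coeff_zero_prod, mul_one]

theorem expSeq_unique {S : AddSubmonoid ℕ} {e e' : ℕ → ℤ} (h : IsExpSeq S e)
    (h' : IsExpSeq S e') (j : ℕ) : e (j + 1) = e' (j + 1) := by
  induction j using Nat.strong_induction_on with
  | _ j ih =>
    have h1 := expSeq_rec h j
    have h2 := expSeq_rec h' j
    have h3 : ∏ i ∈ Finset.range j, u i ^ e (i + 1) = ∏ i ∈ Finset.range j, u i ^ e' (i + 1) := by
      apply Finset.prod_congr rfl
      intro i hi
      rw [ih i (Finset.mem_range.1 hi)]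
    rw [h3] at h1
    linarith

theorem expSeq_zero_of_one_mem {S : AddSubmonoid ℕ} (h1 : 1 ∈ S) : IsExpSeq S (fun _ => 0) := by
  intro N k _
  have hS : ∀ n, n ∈ S := by
    intro n
    have := S.nsmul_mem h1 n
    simpa using this
  have hH : H S = (mk 1 : ℤ⟦X⟧) := by
    ext n; simp [H, hS n]
  have hP : P S = 1 := by
    rw [P, hH, mul_comm]
    exact mk_one_mul_one_sub_eq_one ℤ
  rw [hP]; simp

theorem coeff_H (S : AddSubmonoid ℕ) {n : ℕ} (h : n ∈ S) : coeff n (H S) = 1 := by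
  simp [H, h]

theorem coeff_H_not (S : AddSubmonoid ℕ) {n : ℕ} (h : n ∉ S) : coeff n (H S) = 0 := by
  simp [H, h]

theorem coeff_one_sub_mul (D : ℤ⟦X⟧) (k : ℕ) :
    coeff (k + 1) ((1 - X) * D) = coeff (k + 1) D - coeff k D := by
  rw [sub_mul, one_mul, map_sub, coeff_succ_X_mul]

theorem cancel_one_sub (D D' : ℤ⟦X⟧) (N : ℕ)
    (h : ∀ k ≤ N, coeff k ((1 - X) * D) = coeff k ((1 - X) * D')) :
    ∀ k ≤ N, coeff k D = coeff k D' := by
  intro k
  induction k with
  | zero =>
    intro hk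
    have := h 0 hk
    simpa [coeff_zero_eq_constantCoeff] using this
  | succ k ih =>
    intro hk
    have h1 := h (k + 1) hk
    rw [coeff_one_sub_mul, coeff_one_sub_mul, ih (by omega)] at h1
    linarith

section ExpSeq

variable {S : AddSubmonoid ℕ} {e : ℕ → ℤ} (he : IsExpSeq S e) (hone : 1 ∉ S)

include he hone

theorem e_one : e 1 = 1 := by
  have h := expSeq_rec he 0
  rw [Finset.range_zero, Finset.prod_empty, P, coeff_one_sub_mul, coeff_H_not S hone,
    coeff_H S S.zero_mem] at h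
  simp [coeff_one] at h
  omega

theorem H_eq (N : ℕ) (hN : 1 ≤ N) (k : ℕ) (hk : k ≤ N) :
    coeff k (H S) = coeff k ((∏ i ∈ Finset.Ico 1 N, u i ^ e (i + 1) : ℤ⟦X⟧ˣ) : ℤ⟦X⟧) := by
  refine cancel_one_sub _ _ N ?_ k hk
  intro k hk
  have h := he N k hk
  rw [Finset.range_eq_Ico, Finset.prod_eq_prod_Ico_succ_bot (by omega), Units.val_mul, zero_add,
    e_one he hone, zpow_one, u_val] at h
  simpa [P] using h

theorem H_rec (j : ℕ) (hj : 1 ≤ j) : coeff (j + 1) (H S) =
    coeff (j + 1) ((∏ i ∈ Finset.Ico 1 j, u i ^ e (i + 1) : ℤ⟦X⟧ˣ) : ℤ⟦X⟧) - e (j + 1) := by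
  rw [H_eq he hone (j + 1) (by omega) (j + 1) le_rfl, Finset.prod_Ico_succ_top hj,
    Units.val_mul, coeff_mul_zpow, coeff_zero_prod, mul_one]

theorem mem_of_e_ne_zero (j : ℕ) (hj : 1 ≤ j) (h : e (j + 1) ≠ 0) : j + 1 ∈ S := by
  induction j using Nat.strong_induction_on with
  | _ j ih =>
    by_contra hS
    have h1 := H_rec he hone j hj
    rw [coeff_H_not S hS] at h1
    have h2 : ((∏ i ∈ Finset.Ico 1 j, u i ^ e (i + 1) : ℤ⟦X⟧ˣ) : ℤ⟦X⟧) ∈ Supp S := by
      apply supp_prod S (Finset.Ico 1 j) (fun i => e (i + 1))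
      intro i hi hi0
      rw [Finset.mem_Ico] at hi
      exact ih i hi.2 hi.1 hi0
    rw [h2 (j + 1) hS] at h1
    apply h
    linarith

omit he hone in
/-- `S` without the minimal generator `n` -/
def remove (S : AddSubmonoid ℕ) (n : ℕ) (hn : MinGen S n) : AddSubmonoid ℕ where
  carrier := {s | s ∈ S ∧ s ≠ n}
  zero_mem' := ⟨S.zero_mem, hn.2.1.symm⟩
  add_mem' := by
    rintro x y ⟨hx, hx'⟩ ⟨hy, hy'⟩
    refine ⟨S.add_mem hx hy, ?_⟩
    intro h
    by_cases h0 : x = 0
    · subst h0; rw [zero_add] at h; exact hy' h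
    · by_cases h1 : y = 0
      · subst h1; rw [add_zero] at h; exact hx' h
      · exact hn.2.2 x hx y hy h0 h1 h

theorem e_minGen (n : ℕ) (hn : MinGen S n) : e n = -1 := by
  have hn1 : n ≠ 1 := by rintro rfl; exact hone hn.1
  obtain ⟨j, rfl⟩ : ∃ j, n = j + 1 := ⟨n - 1, by have := hn.2.1; omega⟩
  have hj : 1 ≤ j := by omega
  have h1 := H_rec he hone j hj
  rw [coeff_H S hn.1] at h1
  have h2 : ((∏ i ∈ Finset.Ico 1 j, u i ^ e (i + 1) : ℤ⟦X⟧ˣ) : ℤ⟦X⟧) ∈
      Supp (remove S (j + 1) hn) := by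
    apply supp_prod _ (Finset.Ico 1 j) (fun i => e (i + 1))
    intro i hi hi0
    rw [Finset.mem_Ico] at hi
    exact ⟨mem_of_e_ne_zero he hone i hi.1 hi0, by omega⟩
  rw [h2 (j + 1) (fun h => h.2 rfl)] at h1
  linarith

end ExpSeq

/-! ## Generators and factorizations -/

theorem exists_mem_of_le {S : AddSubmonoid ℕ} (hS : {n | n ∉ S}.Finite) :
    ∃ N, ∀ n, N ≤ n → n ∈ S := by
  obtain ⟨N, hN⟩ := hS.bddAbove
  refine ⟨N + 1, fun n hn => ?_⟩
  by_contra h
  have := hN h
  omega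

theorem finite_gens {S : AddSubmonoid ℕ} (hS : {n | n ∉ S}.Finite) : Finite (Gens S) := by
  obtain ⟨N, hN⟩ := exists_mem_of_le hS
  have : {n | MinGen S n} ⊆ Set.Iio (2 * (N + 1)) := by
    intro n hn
    rw [Set.mem_Iio]
    by_contra h
    push Not at h
    exact hn.2.2 (N + 1) (hN _ (by omega)) (n - (N + 1)) (hN _ (by omega)) (by omega) (by omega)
      (by omega)
  exact (Set.Finite.subset (Set.finite_Iio _) this).to_subtype

theorem φ_single (S : AddSubmonoid ℕ) (g : Gens S) (k : ℕ) :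
    φ S (Finsupp.single g k) = k * (g : ℕ) := by
  change (Finsupp.single g k).sum (fun g k => k * (g : ℕ)) = _
  rw [Finsupp.sum_single_index (by simp)]

theorem exists_factorization (S : AddSubmonoid ℕ) (s : ℕ) (hs : s ∈ S) : ∃ x, φ S x = s := by
  induction s using Nat.strong_induction_on with
  | _ s ih =>
    by_cases h0 : s = 0
    · exact ⟨0, by rw [h0, map_zero]⟩
    · by_cases hg : MinGen S s
      · exact ⟨Finsupp.single ⟨s, hg⟩ 1, by rw [φ_single, one_mul]⟩
      · have : ∃ a ∈ S, ∃ b ∈ S, a ≠ 0 ∧ b ≠ 0 ∧ a + b = s := by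
          by_contra hcon
          apply hg
          refine ⟨hs, h0, ?_⟩
          intro a ha b hb ha0 hb0 hab
          exact hcon ⟨a, ha, b, hb, ha0, hb0, hab⟩
        obtain ⟨a, ha, b, hb, ha0, hb0, hab⟩ := this
        obtain ⟨x, hx⟩ := ih a (by omega) ha
        obtain ⟨y, hy⟩ := ih b (by omega) hb
        exact ⟨x + y, by rw [map_add, hx, hy, hab]⟩

theorem φ_mem (S : AddSubmonoid ℕ) (x : Gens S →₀ ℕ) : φ S x ∈ S := by
  change x.sum (fun g k => k * (g : ℕ)) ∈ S
  apply AddSubmonoid.sum_mem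
  intro g _
  have := S.nsmul_mem g.2.1 (x g)
  simpa using this

/-- `(1 - x^n)` for `n ≥ 1` -/
noncomputable def U (n : ℕ) : ℤ⟦X⟧ˣ := u (n - 1)

theorem U_val {n : ℕ} (hn : n ≠ 0) : ((U n : ℤ⟦X⟧ˣ) : ℤ⟦X⟧) = 1 - X ^ n := by
  rw [U, u_val, Nat.sub_add_cancel (Nat.pos_of_ne_zero hn)]

theorem coeff_U_inv {n : ℕ} (hn : n ≠ 0) (k : ℕ) :
    coeff k (((U n)⁻¹ : ℤ⟦X⟧ˣ) : ℤ⟦X⟧) = if n ∣ k then 1 else 0 := by
  have h : (((U n)⁻¹ : ℤ⟦X⟧ˣ) : ℤ⟦X⟧) = mk (fun k => if n ∣ k then 1 else 0) := by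
    apply Units.inv_eq_of_mul_eq_one_right
    rw [U_val hn]
    ext k
    rw [sub_mul, one_mul, map_sub, coeff_X_pow_mul', coeff_mk, coeff_one]
    by_cases hk : k = 0
    · subst hk
      have : ¬ n ≤ 0 := by omega
      simp [hn]
    · by_cases hnk : n ≤ k
      · rw [if_pos hnk, coeff_mk, if_neg hk]
        have : n ∣ k - n ↔ n ∣ k := by
          constructor
          · intro h
            have := Nat.dvd_add h (dvd_refl n)
            rwa [Nat.sub_add_cancel hnk] at this
          · intro h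
            exact Nat.dvd_sub h (dvd_refl n)
        simp [this]
      · rw [if_neg hnk, if_neg hk, if_neg]
        · simp
        · intro h
          exact hnk (Nat.le_of_dvd (Nat.pos_of_ne_zero hk) h)
  rw [h, coeff_mk]

theorem exists_factset {ι : Type} [Fintype ι] (n : ι → ℕ) (hn : ∀ i, n i ≠ 0)
    (s : ℕ) : ∃ Fs : Finset (ι →₀ ℕ), (∀ x, x ∈ Fs ↔ ∑ i, x i * n i = s) ∧
      coeff s ((∏ i, (U (n i))⁻¹ : ℤ⟦X⟧ˣ) : ℤ⟦X⟧) = Fs.card := by
  classical
  let T := (Finset.univ.finsuppAntidiag s : Finset (ι →₀ ℕ)).filter (fun l => ∀ i, n i ∣ l i)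
  let f : (ι →₀ ℕ) → (ι →₀ ℕ) := fun l => Finsupp.equivFunOnFinite.symm (fun i => l i / n i)
  refine ⟨T.image f, ?_, ?_⟩
  · intro x
    rw [Finset.mem_image]
    constructor
    · rintro ⟨l, hl, rfl⟩
      rw [Finset.mem_filter, Finset.mem_finsuppAntidiag] at hl
      rw [← hl.1.1]
      apply Finset.sum_congr rfl
      intro i _
      simp only [f, Finsupp.equivFunOnFinite_symm_apply_apply]
      exact Nat.div_mul_cancel (hl.2 i)
    · intro hx
      refine ⟨Finsupp.equivFunOnFinite.symm (fun i => x i * n i), ?_, ?_⟩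
      · rw [Finset.mem_filter, Finset.mem_finsuppAntidiag]
        refine ⟨⟨?_, Finset.subset_univ _⟩, ?_⟩
        · simpa using hx
        · intro i; simp
      · ext i
        simp only [f, Finsupp.equivFunOnFinite_symm_apply_apply]
        exact Nat.mul_div_cancel _ (Nat.pos_of_ne_zero (hn i))
  · rw [Finset.card_image_of_injOn, Units.coe_prod, coeff_prod]
    · have : ∀ l ∈ (Finset.univ.finsuppAntidiag s : Finset (ι →₀ ℕ)),
          ∏ i, coeff (l i) (((U (n i))⁻¹ : ℤ⟦X⟧ˣ) : ℤ⟦X⟧) =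
            if (∀ i, n i ∣ l i) then 1 else 0 := by
        intro l _
        rw [Finset.prod_congr rfl (fun i _ => coeff_U_inv (hn i) (l i))]
        split_ifs with h
        · apply Finset.prod_eq_one
          intro i _; rw [if_pos (h i)]
        · push Not at h
          obtain ⟨i, hi⟩ := h
          apply Finset.prod_eq_zero (Finset.mem_univ i)
          rw [if_neg hi]
      rw [Finset.sum_congr rfl this, Finset.sum_boole]
    · intro l hl l' hl' hll
      have h1 := (Finset.mem_filter.1 hl).2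
      have h2 := (Finset.mem_filter.1 hl').2
      ext i
      have h3 := DFunLike.congr_fun hll i
      simp only [f, Finsupp.equivFunOnFinite_symm_apply_apply] at h3
      rw [← Nat.div_mul_cancel (h1 i), ← Nat.div_mul_cancel (h2 i), h3]

/-! ## A polynomial identity -/

section Poly

open Polynomial in
theorem poly_cancel (A B : Polynomial ℤ) (hA : A.eval 1 ≠ 0) (hB : B.eval 1 ≠ 0) (m n : ℕ)
    (h : (1 - Polynomial.X) ^ m * A = (1 - Polynomial.X) ^ n * B) : m = n ∧ A = B := by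
  have h10 : (1 - Polynomial.X : Polynomial ℤ) ≠ 0 := by
    intro h
    have := congrArg (Polynomial.eval 0) h
    simp at this
  have key : ∀ (A B : Polynomial ℤ) (m k : ℕ), A.eval 1 ≠ 0 →
      (1 - Polynomial.X) ^ m * A = (1 - Polynomial.X) ^ (m + k) * B → k = 0 ∧ A = B := by
    intro A B m k hA h
    rw [pow_add, mul_assoc] at h
    have h1 := mul_left_cancel₀ (pow_ne_zero m h10) h
    have hk : k = 0 := by
      by_contra hk
      apply hA
      rw [h1]
      simp [hk]
    subst hk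
    exact ⟨rfl, by simpa using h1⟩
  rcases le_total m n with hmn | hmn
  · obtain ⟨k, rfl⟩ := Nat.exists_eq_add_of_le hmn
    obtain ⟨h1, h2⟩ := key A B m k hA h
    exact ⟨by omega, h2⟩
  · obtain ⟨k, rfl⟩ := Nat.exists_eq_add_of_le hmn
    obtain ⟨h1, h2⟩ := key B A n k hB h.symm
    exact ⟨by omega, h2.symm⟩

theorem poly_identity {ι : Type} [Fintype ι] (n : ι → ℕ) (hn : ∀ i, 2 ≤ n i)
    (a b α β : ℕ) (ha : a ≠ 0) (hb : b ≠ 0) (p : Polynomial ℤ) (hp : p.eval 1 = 1)
    (h : p * ∏ i, (1 - Polynomial.X ^ n i) =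
      (1 - Polynomial.X) * (1 - Polynomial.X ^ a) ^ α * (1 - Polynomial.X ^ b) ^ β) :
    Fintype.card ι = α + β + 1 ∧ ∏ i, n i = a ^ α * b ^ β ∧ ∀ i, n i ∣ a ∨ n i ∣ b := by
  have hg : ∀ n : ℕ, (1 - Polynomial.X ^ n : Polynomial ℤ) =
      (1 - Polynomial.X) * ∑ i ∈ Finset.range n, Polynomial.X ^ i := by
    intro n; exact (mul_neg_geom_sum _ n).symm
  have he : ∀ n : ℕ, (∑ i ∈ Finset.range n, Polynomial.X ^ i : Polynomial ℤ).eval 1 = n := by
    intro n; simp [Polynomial.eval_finsetSum]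
  have h1 : (1 - Polynomial.X) ^ (Fintype.card ι) *
      (p * ∏ i, ∑ j ∈ Finset.range (n i), Polynomial.X ^ j) =
      (1 - Polynomial.X) ^ (α + β + 1) * ((∑ i ∈ Finset.range a, Polynomial.X ^ i) ^ α *
        (∑ i ∈ Finset.range b, Polynomial.X ^ i) ^ β) := by
    have h2 : ∏ i, (1 - Polynomial.X ^ n i : Polynomial ℤ) =
        (1 - Polynomial.X) ^ (Fintype.card ι) *
          ∏ i, ∑ j ∈ Finset.range (n i), Polynomial.X ^ j := by
      rw [Finset.prod_congr rfl (fun i _ => hg (n i)), Finset.prod_mul_distrib,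
        Finset.prod_const, Finset.card_univ]
    rw [h2, hg a, hg b, mul_pow, mul_pow] at h
    linear_combination h
  have hA : (p * ∏ i, ∑ j ∈ Finset.range (n i), Polynomial.X ^ j : Polynomial ℤ).eval 1 =
      ((∏ i, n i : ℕ) : ℤ) := by
    rw [Polynomial.eval_mul, Polynomial.eval_prod, hp, one_mul, Nat.cast_prod]
    exact Finset.prod_congr rfl (fun i _ => he (n i))
  have hB : ((∑ i ∈ Finset.range a, Polynomial.X ^ i) ^ α *
        (∑ i ∈ Finset.range b, Polynomial.X ^ i) ^ β : Polynomial ℤ).eval 1 =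
      ((a ^ α * b ^ β : ℕ) : ℤ) := by
    rw [Polynomial.eval_mul, Polynomial.eval_pow, Polynomial.eval_pow, he, he]; push_cast; rfl
  have hA0 : ((∏ i, n i : ℕ) : ℤ) ≠ 0 := by
    have : ∏ i, n i ≠ 0 := Finset.prod_ne_zero_iff.2 (fun i _ => by have := hn i; omega)
    exact_mod_cast this
  have hB0 : ((a ^ α * b ^ β : ℕ) : ℤ) ≠ 0 := by
    have : a ^ α * b ^ β ≠ 0 := mul_ne_zero (pow_ne_zero _ ha) (pow_ne_zero _ hb)
    exact_mod_cast this
  obtain ⟨h3, h4⟩ := poly_cancel _ _ (by rw [hA]; exact hA0) (by rw [hB]; exact hB0) _ _ h1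
  refine ⟨h3, ?_, ?_⟩
  · have h5 := congrArg (Polynomial.eval 1) h4
    rw [hA, hB] at h5
    exact_mod_cast h5
  · intro i
    have hi0 : n i ≠ 0 := by have := hn i; omega
    have hζ := Complex.isPrimitiveRoot_exp (n i) hi0
    set ζ := Complex.exp (2 * Real.pi * Complex.I / (n i)) with hζdef
    have h6 := congrArg (Polynomial.aeval ζ) h
    simp only [map_mul, map_prod, map_sub, map_one, map_pow, Polynomial.aeval_X] at h6
    have h7 : ∏ i, (1 - ζ ^ n i) = 0 :=
      Finset.prod_eq_zero (Finset.mem_univ i) (by rw [hζ.pow_eq_one]; simp)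
    rw [h7, mul_zero] at h6
    have h8 := h6.symm
    rw [mul_eq_zero, mul_eq_zero] at h8
    rcases h8 with (h9 | h9) | h9
    · exfalso
      have : ζ ^ 1 = 1 := by rw [pow_one]; exact (sub_eq_zero.1 h9).symm
      have := hζ.dvd_of_pow_eq_one 1 this
      have h10 := hn i
      have := Nat.le_of_dvd one_pos this
      omega
    · left
      have h10 : 1 - ζ ^ a = 0 := by
        by_contra hne
        exact pow_ne_zero _ hne h9
      exact hζ.dvd_of_pow_eq_one a (sub_eq_zero.1 h10).symm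
    · right
      have h10 : 1 - ζ ^ b = 0 := by
        by_contra hne
        exact pow_ne_zero _ hne h9
      exact hζ.dvd_of_pow_eq_one b (sub_eq_zero.1 h10).symm

end Poly

/-! ## The main theorem -/

theorem φ_eq_sum (S : AddSubmonoid ℕ) [Fintype (Gens S)] (x : Gens S →₀ ℕ) :
    φ S x = ∑ i : Gens S, x i * (i : ℕ) := by
  change x.sum (fun g k => k * (g : ℕ)) = _
  rw [Finsupp.sum_fintype _ _ (by simp)]

/-- the support of a product of powers of `1 - x^a` and `1 - x^b` -/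
theorem mem_closure_cases {S : AddSubmonoid ℕ} {a b : ℕ} (haS : a ∈ S) (hbS : b ∈ S) {j : ℕ}
    (hj : j ∈ AddSubmonoid.closure ({a, b} : Set ℕ)) (hj0 : j ≠ 0) :
    (∃ t ∈ S, j = a + t) ∨ (∃ t ∈ S, j = b + t) := by
  rw [AddSubmonoid.mem_closure_pair] at hj
  obtain ⟨m, n, h⟩ := hj
  simp only [smul_eq_mul] at h
  rcases Nat.eq_zero_or_pos m with hm | hm
  · rcases Nat.eq_zero_or_pos n with hn | hn
    · subst hm; subst hn; simp at h; omega
    · right
      refine ⟨(n - 1) * b, ?_, ?_⟩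
      · have := S.nsmul_mem hbS (n - 1)
        simpa using this
      · obtain ⟨k, rfl⟩ : ∃ k, n = k + 1 := ⟨n - 1, by omega⟩
        rw [← h, hm]; simp; ring
  · left
    obtain ⟨k, rfl⟩ : ∃ k, m = k + 1 := ⟨m - 1, by omega⟩
    refine ⟨k * a + n * b, ?_, ?_⟩
    · refine S.add_mem ?_ ?_
      · have := S.nsmul_mem haS k
        simpa using this
      · have := S.nsmul_mem hbS n
        simpa using this
    · rw [← h]; ring

theorem result (S : AddSubmonoid ℕ) (hS : {n | n ∉ S}.Finite) (a b : ℕ) (hab : a ≠ b)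
    (hE : E S = {a, b}) (h1 : ¬ LeS S a b) (h2 : ¬ LeS S b a) : IsCompleteIntersection S := by
  classical
  -- the exponent sequence
  have haE : a ∈ E S := by rw [hE]; simp
  have hbE : b ∈ E S := by rw [hE]; simp
  obtain ⟨ha2, haG, e, he, hea⟩ := haE
  obtain ⟨hb2, hbG, e', he', heb'⟩ := hbE
  have heb : e b ≠ 0 := by
    have := expSeq_unique he he' (b - 1)
    rw [Nat.sub_add_cancel (by omega)] at this
    rw [this]; exact heb'
  have hone : 1 ∉ S := by
    intro h
    have := expSeq_unique he (expSeq_zero_of_one_mem h) (a - 1)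
    rw [Nat.sub_add_cancel (by omega)] at this
    exact hea this
  have hother : ∀ d, 2 ≤ d → e d ≠ 0 → d = a ∨ d = b ∨ MinGen S d := by
    intro d hd hed
    by_cases hg : MinGen S d
    · right; right; exact hg
    · have : d ∈ E S := ⟨hd, hg, e, he, hed⟩
      rw [hE] at this
      rcases this with h | h
      · left; exact h
      · right; left; exact h
  have haS : a ∈ S := by
    have := mem_of_e_ne_zero he hone (a - 1) (by omega)
    rw [Nat.sub_add_cancel (by omega)] at this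
    exact this hea
  have hbS : b ∈ S := by
    have := mem_of_e_ne_zero he hone (b - 1) (by omega)
    rw [Nat.sub_add_cancel (by omega)] at this
    exact this heb
  have := finite_gens hS
  have : Fintype (Gens S) := Fintype.ofFinite _
  have hg2 : ∀ i : Gens S, 2 ≤ (i : ℕ) := by
    intro i
    have h0 := i.2.2.1
    have h1 : (i : ℕ) ≠ 1 := by intro h; exact hone (h ▸ i.2.1)
    omega
  -- the product formula for `H`
  obtain ⟨N, hN⟩ : ∃ N, ∀ d, 2 ≤ d → e d ≠ 0 → d ≤ N := by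
    obtain ⟨M, hM⟩ := (Set.finite_range (fun i : Gens S => (i : ℕ))).bddAbove
    refine ⟨M + a + b, fun d hd hed => ?_⟩
    rcases hother d hd hed with h | h | h
    · omega
    · omega
    · have := hM ⟨⟨d, h⟩, rfl⟩
      simp only at this
      omega
  have hN1 : 2 ≤ N := by have := hN a ha2 hea; omega
  let Gf : Finset ℕ := Finset.univ.image (fun i : Gens S => (i : ℕ))
  have hGf : ∀ d, d ∈ Gf ↔ MinGen S d := by
    intro d
    simp [Gf]
  have hprodH : ∀ M, N ≤ M → ∏ i ∈ Finset.Ico 1 M, u i ^ e (i + 1) =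
      U a ^ e a * (U b ^ e b * ∏ i : Gens S, (U (i : ℕ))⁻¹) := by
    intro M hM
    have s1 : ∏ i ∈ Finset.Ico 1 M, u i ^ e (i + 1) = ∏ n ∈ Finset.Ico 2 (M + 1), U n ^ e n := by
      rw [← Finset.prod_Ico_add' (fun n => U n ^ e n) 1 M 1]
      rfl
    have s2 : ∏ i : Gens S, (U (i : ℕ))⁻¹ = ∏ n ∈ Gf, U n ^ e n := by
      rw [Finset.prod_image (by intro i _ j _ h; exact Subtype.ext h)]
      apply Finset.prod_congr rfl
      intro i _
      rw [e_minGen he hone i i.2]
      simp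
    rw [s1, s2]
    have hbn : b ∉ Gf := by rw [hGf]; exact hbG
    have han : a ∉ insert b Gf := by
      rw [Finset.mem_insert, hGf, not_or]; exact ⟨hab, haG⟩
    rw [← Finset.prod_insert (f := fun n => U n ^ e n) hbn,
      ← Finset.prod_insert (f := fun n => U n ^ e n) han]
    symm
    apply Finset.prod_subset
    · intro d hd
      rw [Finset.mem_insert, Finset.mem_insert, hGf] at hd
      rw [Finset.mem_Ico]
      rcases hd with rfl | rfl | hd
      · have := hN d ha2 hea; omega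
      · have := hN d hb2 heb; omega
      · have h3 := e_minGen he hone d hd
        have h4 := hg2 ⟨d, hd⟩
        have := hN d h4 (by rw [h3]; decide)
        simp only at h4
        omega
    · intro d hd hd'
      rw [Finset.mem_insert, Finset.mem_insert, hGf] at hd'
      push Not at hd'
      rw [Finset.mem_Ico] at hd
      have : e d = 0 := by
        by_contra h
        rcases hother d hd.1 h with h | h | h
        · exact hd'.1 h
        · exact hd'.2.1 h
        · exact hd'.2.2 h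
      rw [this, zpow_zero]
  set Fu : ℤ⟦X⟧ˣ := ∏ i : Gens S, (U (i : ℕ))⁻¹ with hFu
  have hH : H S = ((U a ^ e a * (U b ^ e b * Fu) : ℤ⟦X⟧ˣ) : ℤ⟦X⟧) := by
    ext k
    have h3 := H_eq he hone (N + k) (by omega) k (by omega)
    rw [h3, hprodH (N + k) (by omega)]
  set K : ℤ⟦X⟧ˣ := U b ^ (-e b) * U a ^ (-e a) with hK
  have hF : (Fu : ℤ⟦X⟧) = H S * (K : ℤ⟦X⟧) := by
    rw [hH, ← Units.val_mul]
    congr 1
    rw [hK, zpow_neg, zpow_neg]
    have : U a ^ e a * (U b ^ e b * Fu) * ((U b ^ e b)⁻¹ * (U a ^ e a)⁻¹) = Fu := by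
      have e1 : U a ^ e a * (U b ^ e b * Fu) * ((U b ^ e b)⁻¹ * (U a ^ e a)⁻¹) =
        (U a ^ e a * (U a ^ e a)⁻¹) * (U b ^ e b * (U b ^ e b)⁻¹) * Fu := by
        ac_rfl
      rw [e1, mul_inv_cancel, mul_inv_cancel, one_mul, one_mul]
    exact this.symm
  have hUa : U a = u (a - 1) := rfl
  have hUb : U b = u (b - 1) := rfl
  have hKS : (K : ℤ⟦X⟧) ∈ Supp (AddSubmonoid.closure ({a, b} : Set ℕ)) := by
    rw [hK, Units.val_mul]
    refine (Supp _).mul_mem ?_ ?_
    · rw [hUb]
      apply supp_zpow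
      rw [Nat.sub_add_cancel (by omega)]
      exact AddSubmonoid.subset_closure (by simp)
    · rw [hUa]
      apply supp_zpow
      rw [Nat.sub_add_cancel (by omega)]
      exact AddSubmonoid.subset_closure (by simp)
  have hK0 : coeff 0 (K : ℤ⟦X⟧) = 1 := by
    rw [hK, Units.val_mul, coeff_zero_eq_constantCoeff, map_mul, hUa, hUb]
    have e1 := coeff_zero_zpow (b - 1) (-e b)
    have e2 := coeff_zero_zpow (a - 1) (-e a)
    rw [coeff_zero_eq_constantCoeff] at e1 e2
    rw [e1, e2, one_mul]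
  have hKa : coeff a (K : ℤ⟦X⟧) = e a := by
    have e1 := coeff_mul_zpow ((U b ^ (-e b) : ℤ⟦X⟧ˣ) : ℤ⟦X⟧) (a - 1) (-e a)
    rw [Nat.sub_add_cancel (by omega : 1 ≤ a), hUb, coeff_zero_zpow] at e1
    rw [hK, Units.val_mul, hUa, hUb, e1]
    have e2 : ((u (b - 1) ^ (-e b) : ℤ⟦X⟧ˣ) : ℤ⟦X⟧) ∈ Supp (AddSubmonoid.multiples b) := by
      apply supp_zpow
      rw [Nat.sub_add_cancel (by omega)]
      exact AddSubmonoid.mem_multiples b
    rw [e2 a]
    · ring
    · rintro ⟨k, hk⟩
      simp only [smul_eq_mul] at hk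
      obtain ⟨m, rfl⟩ : ∃ m, k = m + 1 := by
        rcases Nat.eq_zero_or_pos k with h | h
        · subst h; simp at hk; omega
        · exact ⟨k - 1, by omega⟩
      apply h2
      refine ⟨m * b, ?_, ?_⟩
      · have := S.nsmul_mem hbS m
        simpa using this
      · rw [← hk]; ring
  have hKb : coeff b (K : ℤ⟦X⟧) = e b := by
    have e1 := coeff_mul_zpow ((U a ^ (-e a) : ℤ⟦X⟧ˣ) : ℤ⟦X⟧) (b - 1) (-e b)
    rw [Nat.sub_add_cancel (by omega : 1 ≤ b), hUa, coeff_zero_zpow] at e1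
    rw [hK, mul_comm, Units.val_mul, hUa, hUb, e1]
    have e2 : ((u (a - 1) ^ (-e a) : ℤ⟦X⟧ˣ) : ℤ⟦X⟧) ∈ Supp (AddSubmonoid.multiples a) := by
      apply supp_zpow
      rw [Nat.sub_add_cancel (by omega)]
      exact AddSubmonoid.mem_multiples a
    rw [e2 b]
    · ring
    · rintro ⟨k, hk⟩
      simp only [smul_eq_mul] at hk
      obtain ⟨m, rfl⟩ : ∃ m, k = m + 1 := by
        rcases Nat.eq_zero_or_pos k with h | h
        · subst h; simp at hk; omega
        · exact ⟨k - 1, by omega⟩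
      apply h1
      refine ⟨m * a, ?_, ?_⟩
      · have := S.nsmul_mem haS m
        simpa using this
      · rw [← hk]; ring
  -- number of factorizations
  have hn0 : ∀ i : Gens S, (i : ℕ) ≠ 0 := fun i => i.2.2.1
  have fact := fun s => exists_factset (fun i : Gens S => (i : ℕ)) hn0 s
  choose Fs hFs cFs using fact
  have hFs' : ∀ s x, x ∈ Fs s ↔ φ S x = s := by
    intro s x; rw [hFs, φ_eq_sum]
  have hd1 : ∀ s ∈ S, (∀ t ∈ S, s ≠ a + t) → (∀ t ∈ S, s ≠ b + t) → (Fs s).card = 1 := by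
    intro s hs hsa hsb
    have e1 := cFs s
    change coeff s (Fu : ℤ⟦X⟧) = _ at e1
    rw [hF, coeff_mul, Finset.sum_eq_single (s, 0)] at e1
    · simp only at e1
      rw [coeff_H S hs, hK0] at e1
      have : ((Fs s).card : ℤ) = 1 := by linarith
      exact_mod_cast this
    · rintro ⟨i, j⟩ hij hne
      rw [Finset.HasAntidiagonal.mem_antidiagonal] at hij
      simp only at hij ⊢
      have hj0 : j ≠ 0 := by rintro rfl; apply hne; simp at hij; rw [hij]
      by_cases hi : i ∈ S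
      · by_cases hj : j ∈ AddSubmonoid.closure ({a, b} : Set ℕ)
        · exfalso
          rcases mem_closure_cases haS hbS hj hj0 with ⟨t, ht, rfl⟩ | ⟨t, ht, rfl⟩
          · exact hsa (i + t) (S.add_mem hi ht) (by omega)
          · exact hsb (i + t) (S.add_mem hi ht) (by omega)
        · rw [hKS j hj, mul_zero]
      · rw [coeff_H_not S hi, zero_mul]
    · intro h; exfalso; apply h; simp
  have hda : ((Fs a).card : ℤ) = e a + 1 := by
    have e1 := cFs a
    change coeff a (Fu : ℤ⟦X⟧) = _ at e1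
    rw [← e1, hF, coeff_mul]
    have hsub : ({(0, a), (a, 0)} : Finset (ℕ × ℕ)) ⊆ Finset.HasAntidiagonal.antidiagonal a := by
      intro x hx
      simp only [Finset.mem_insert, Finset.mem_singleton] at hx
      rcases hx with rfl | rfl <;> simp
    rw [← Finset.sum_subset hsub]
    · rw [Finset.sum_pair (by simp; omega)]
      simp only
      rw [coeff_H S S.zero_mem, coeff_H S haS, hK0, hKa]; ring
    · rintro ⟨i, j⟩ hij hne
      rw [Finset.HasAntidiagonal.mem_antidiagonal] at hij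
      simp only [Finset.mem_insert, Finset.mem_singleton, Prod.mk.injEq, not_or] at hne hij
      simp only
      have hj0 : j ≠ 0 := by rintro rfl; apply hne.2; omega
      by_cases hi : i ∈ S
      · by_cases hj : j ∈ AddSubmonoid.closure ({a, b} : Set ℕ)
        · exfalso
          rcases mem_closure_cases haS hbS hj hj0 with ⟨t, ht, rfl⟩ | ⟨t, ht, rfl⟩
          · apply hne.1; omega
          · exact h2 ⟨i + t, S.add_mem hi ht, by omega⟩
        · rw [hKS j hj, mul_zero]
      · rw [coeff_H_not S hi, zero_mul]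
  have hdb : ((Fs b).card : ℤ) = e b + 1 := by
    have e1 := cFs b
    change coeff b (Fu : ℤ⟦X⟧) = _ at e1
    rw [← e1, hF, coeff_mul]
    have hsub : ({(0, b), (b, 0)} : Finset (ℕ × ℕ)) ⊆ Finset.HasAntidiagonal.antidiagonal b := by
      intro x hx
      simp only [Finset.mem_insert, Finset.mem_singleton] at hx
      rcases hx with rfl | rfl <;> simp
    rw [← Finset.sum_subset hsub]
    · rw [Finset.sum_pair (by simp; omega)]
      simp only
      rw [coeff_H S S.zero_mem, coeff_H S hbS, hK0, hKb]; ring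
    · rintro ⟨i, j⟩ hij hne
      rw [Finset.HasAntidiagonal.mem_antidiagonal] at hij
      simp only [Finset.mem_insert, Finset.mem_singleton, Prod.mk.injEq, not_or] at hne hij
      simp only
      have hj0 : j ≠ 0 := by rintro rfl; apply hne.2; omega
      by_cases hi : i ∈ S
      · by_cases hj : j ∈ AddSubmonoid.closure ({a, b} : Set ℕ)
        · exfalso
          rcases mem_closure_cases haS hbS hj hj0 with ⟨t, ht, rfl⟩ | ⟨t, ht, rfl⟩
          · exact h1 ⟨i + t, S.add_mem hi ht, by omega⟩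
          · apply hne.1; omega
        · rw [hKS j hj, mul_zero]
      · rw [coeff_H_not S hi, zero_mul]
  -- disjointness of the supports
  have hdisj : ∀ c, ((∀ g : Gens S, ∀ s ∈ S, s + g = c → (Fs s).card = 1)) →
      ∀ x ∈ Fs c, ∀ y ∈ Fs c, x ≠ y → ∀ i, x i = 0 ∨ y i = 0 := by
    intro c hc x hx y hy hxy i
    by_contra hcon
    push Not at hcon
    have hx1 : x = (x - Finsupp.single i 1) + Finsupp.single i 1 :=
      (tsub_add_cancel_of_le (by rw [Finsupp.single_le_iff]; omega)).symm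
    have hy1 : y = (y - Finsupp.single i 1) + Finsupp.single i 1 :=
      (tsub_add_cancel_of_le (by rw [Finsupp.single_le_iff]; omega)).symm
    set x' := x - Finsupp.single i 1
    set y' := y - Finsupp.single i 1
    have ex : φ S x' + i = c := by
      rw [← (hFs' c x).1 hx, hx1, map_add, φ_single, one_mul]
    have ey : φ S y' + i = c := by
      rw [← (hFs' c y).1 hy, hy1, map_add, φ_single, one_mul]
    have hcard := hc i (φ S x') (φ_mem S x') ex
    have hxm : x' ∈ Fs (φ S x') := (hFs' _ _).2 rfl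
    have hym : y' ∈ Fs (φ S x') := (hFs' _ _).2 (by omega)
    have : x' = y' := by
      obtain ⟨z, hz⟩ := Finset.card_eq_one.1 hcard
      rw [hz, Finset.mem_singleton] at hxm hym
      rw [hxm, hym]
    apply hxy
    rw [hx1, hy1, this]
  have hdisja : ∀ x ∈ Fs a, ∀ y ∈ Fs a, x ≠ y → ∀ i, x i = 0 ∨ y i = 0 := by
    apply hdisj a
    intro g s hs hsg
    apply hd1 s hs
    · intro t ht hst
      have := hg2 g
      omega
    · intro t ht hst
      exact h2 ⟨t + g, S.add_mem ht g.2.1, by omega⟩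
  have hdisjb : ∀ x ∈ Fs b, ∀ y ∈ Fs b, x ≠ y → ∀ i, x i = 0 ∨ y i = 0 := by
    apply hdisj b
    intro g s hs hsg
    apply hd1 s hs
    · intro t ht hst
      exact h1 ⟨t + g, S.add_mem ht g.2.1, by omega⟩
    · intro t ht hst
      have := hg2 g
      omega
  -- the exponents are natural numbers
  have hposa : 0 < (Fs a).card := by
    obtain ⟨x, hx⟩ := exists_factorization S a haS
    exact Finset.card_pos.2 ⟨x, (hFs' a x).2 hx⟩
  have hposb : 0 < (Fs b).card := by
    obtain ⟨x, hx⟩ := exists_factorization S b hbS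
    exact Finset.card_pos.2 ⟨x, (hFs' b x).2 hx⟩
  obtain ⟨α, hα⟩ : ∃ α : ℕ, e a = α := ⟨(e a).toNat, by omega⟩
  obtain ⟨β, hβ⟩ : ∃ β : ℕ, e b = β := ⟨(e b).toNat, by omega⟩
  -- polynomials
  set p : Polynomial ℤ := 1 - (1 - Polynomial.X) * ∑ g ∈ hS.toFinset, Polynomial.X ^ g with hp
  have hpe : p.eval 1 = 1 := by simp [hp]
  have hpH : (p : ℤ⟦X⟧) = (1 - X) * H S := by
    have e1 : H S = mk 1 - ∑ g ∈ hS.toFinset, (X : ℤ⟦X⟧) ^ g := by
      ext k
      rw [map_sub, map_sum, coeff_mk]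
      simp only [coeff_X_pow, Pi.one_apply]
      by_cases hk : k ∈ S
      · rw [coeff_H S hk, Finset.sum_eq_zero]
        · ring
        · intro g hg
          rw [if_neg]
          rintro rfl
          simp at hg
          exact hg hk
      · rw [coeff_H_not S hk, Finset.sum_ite_eq, if_pos]
        · ring
        · simpa using hk
    have e2 : (1 - X) * (mk 1 : ℤ⟦X⟧) = 1 := by
      rw [mul_comm]; exact mk_one_mul_one_sub_eq_one ℤ
    rw [e1, mul_sub, e2, hp, Polynomial.coe_sub, Polynomial.coe_mul, Polynomial.coe_sub,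
      Polynomial.coe_one, Polynomial.coe_X]
    congr 2
    rw [← Polynomial.coeToPowerSeries.ringHom_apply, map_sum]
    simp
  have hpoly : p * ∏ i : Gens S, (1 - Polynomial.X ^ (i : ℕ)) =
      (1 - Polynomial.X) * (1 - Polynomial.X ^ a) ^ α * (1 - Polynomial.X ^ b) ^ β := by
    apply Polynomial.coe_injective ℤ
    rw [← Polynomial.coeToPowerSeries.ringHom_apply, ← Polynomial.coeToPowerSeries.ringHom_apply]
    simp only [map_mul, map_prod, map_pow, map_sub, map_one,
      Polynomial.coeToPowerSeries.ringHom_apply, Polynomial.coe_X]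
    rw [hpH, hH, hα, hβ]
    have e1 : ∏ i : Gens S, ((1 : ℤ⟦X⟧) - X ^ (i : ℕ)) = ((Fu⁻¹ : ℤ⟦X⟧ˣ) : ℤ⟦X⟧) := by
      rw [hFu, Finset.prod_inv_distrib, inv_inv, Units.coe_prod]
      exact Finset.prod_congr rfl (fun i _ => (U_val (hn0 i)).symm)
    have e2 : ((U a : ℤ⟦X⟧ˣ) : ℤ⟦X⟧) ^ α * ((U b : ℤ⟦X⟧ˣ) : ℤ⟦X⟧) ^ β =
        ((U a ^ α * U b ^ β : ℤ⟦X⟧ˣ) : ℤ⟦X⟧) := by
      rw [Units.val_mul, Units.val_pow_eq_pow_val, Units.val_pow_eq_pow_val]
    have e3 : U a ^ (α : ℤ) * (U b ^ (β : ℤ) * Fu) * Fu⁻¹ = U a ^ α * U b ^ β := by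
      rw [zpow_natCast, zpow_natCast, mul_assoc, mul_assoc, mul_inv_cancel, mul_one]
    rw [e1, ← U_val (by omega : a ≠ 0), ← U_val (by omega : b ≠ 0), mul_assoc, mul_assoc,
      ← Units.val_mul, e2, e3]
  obtain ⟨hcard, hprod, hdvd⟩ := poly_identity (fun i : Gens S => (i : ℕ)) hg2 a b α β
    (by omega) (by omega) p hpe hpoly
  obtain ⟨ρ, hρ1, hρ2, hρ3⟩ := Pool.Agent.R656.NSCore.core (fun i : Gens S => (i : ℕ)) hn0 (φ S)
    (φ_single S) a b α β (by omega) (by omega) hcard hprod hdvd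
    (Fs a) (hFs' a) (by omega) hdisja (Fs b) (hFs' b) (by omega) hdisjb (by
      obtain ⟨N, hN⟩ := exists_mem_of_le hS
      exact ⟨N, fun s hs => exists_factorization S s (hN s hs)⟩)
  exact ⟨ρ, hρ1, hρ2, by rw [Nat.card_eq_fintype_card]; exact hρ3⟩

end Pool.Agent.Results.MP_a0aa5b_al.TwoIncomparable
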